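import Mathlib
import Pool.Agent.N740.HK.Levy
import Pool.Agent.R528.RM.BHFinal

/-!
# Converse of the conditional strong law, and the law for pairs
-/

set_option autoImplicit false
set_option linter.unusedSectionVars false

open MeasureTheory Filter Set Asymptotics
open scoped ENNReal Topology NNReal

namespace Pool.Agent.N638.TW

open Pool.Agent.R528.RM Pool.Agent.N740.HK

variable {Ω : Type} {m0 : MeasurableSpace Ω} {μ : Measure Ω} [IsProbabilityMeasure μ]
  {ℱ : Filtration ℕ m0} {A : ℕ → Set Ω}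

/-- if the compensator is bounded, so is the sum -/
theorem levy_conv (hA : ∀ n, MeasurableSet[ℱ n] (A n)) (w : ℕ → Ω → ℝ) (hw : ∀ n, StronglyMeasurable[ℱ n] (w n))
    (h01 : ∀ n ω, 0 ≤ w n ω ∧ w n ω ≤ 1) :
    ∀ᵐ ω ∂μ, (∃ K : ℝ, ∀ N, ∑ n ∈ Finset.range N, w n ω * dens μ ℱ A n ω ≤ K) →
      ∃ K : ℝ, ∀ N, ∑ n ∈ Finset.range N, w n ω * J1 A (n + 1) ω ≤ K := by
  classical
  set V : ℕ → Ω → ℝ := fun N ω => ∑ n ∈ Finset.range N, w n ω * DD' μ ℱ A n ω with hV
  have hVt : ∀ n ω, 0 ≤ w n ω * DD' μ ℱ A n ω ∧ w n ω * DD' μ ℱ A n ω ≤ 1 := fun n ω =>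
    ⟨mul_nonneg (h01 n ω).1 (DD'_bd n ω).1, mul_le_one₀ (h01 n ω).2 (DD'_bd n ω).1 (DD'_bd n ω).2⟩
  have hVs : ∀ N ω, V (N + 1) ω = V N ω + w N ω * DD' μ ℱ A N ω := fun N ω => by
    simp only [hV, Finset.sum_range_succ]
  have hVm : ∀ n, StronglyMeasurable[ℱ n] (V (n + 1)) := fun n => by
    simp only [hV]
    refine Finset.stronglyMeasurable_fun_sum _ fun k hk => ?_
    have hk := Finset.mem_range.1 hk
    exact ((hw k).mono (ℱ.mono (by omega))).mul ((DD'_meas k).mono (ℱ.mono (by omega)))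
  set c : ℕ → ℕ → Ω → ℝ := fun K n => {ω | V (n + 1) ω ≤ K}.indicator (w n) with hc
  have hcm : ∀ K n, StronglyMeasurable[ℱ n] (c K n) := fun K n => by
    refine (hw n).indicator ?_
    exact (hVm n).measurable measurableSet_Iic
  have hc01 : ∀ K n ω, 0 ≤ c K n ω ∧ c K n ω ≤ 1 := fun K n ω => by
    simp only [hc]
    by_cases h : ω ∈ {ω | V (n + 1) ω ≤ K}
    · rw [indicator_of_mem h]; exact h01 n ω
    · rw [indicator_of_notMem h]; exact ⟨le_rfl, zero_le_one⟩
  have hcb : ∀ K n ω, |c K n ω| ≤ 1 := fun K n ω => by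
    rw [abs_of_nonneg (hc01 K n ω).1]; exact (hc01 K n ω).2
  have hsum1 : ∀ (K : ℕ) N ω, ∑ n ∈ Finset.range N, c K n ω * DD' μ ℱ A n ω ≤ V N ω ∧
      ∑ n ∈ Finset.range N, c K n ω * DD' μ ℱ A n ω ≤ K := by
    intro K N ω
    induction N with
    | zero => simp [hV]
    | succ N ih =>
      rw [Finset.sum_range_succ, hVs]
      by_cases h : ω ∈ {ω | V (N + 1) ω ≤ K}
      · have e : c K N ω = w N ω := by simp only [hc]; rw [indicator_of_mem h]
        rw [e]
        have h' : V (N + 1) ω ≤ K := h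
        rw [hVs] at h'
        constructor <;> linarith [ih.1]
      · have e : c K N ω = 0 := by simp only [hc]; rw [indicator_of_notMem h]
        rw [e, zero_mul, add_zero]
        exact ⟨by linarith [ih.1, (hVt N ω).1], ih.2⟩
  have hsum : ∀ (K : ℕ) N ω, ∑ n ∈ Finset.range N, c K n ω ^ 2 * DD' μ ℱ A n ω ≤ K := by
    intro K N ω
    refine le_trans (Finset.sum_le_sum fun n _ => ?_) (hsum1 K N ω).2
    refine mul_le_mul_of_nonneg_right ?_ (DD'_bd n ω).1
    rw [sq]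
    exact mul_le_of_le_one_left (hc01 K n ω).1 (hc01 K n ω).2
  have hb : ∀ K N : ℕ, eLpNorm (ZZ μ ℱ A (c K) N) 1 μ ≤ (((1 + K : ℕ) : ℝ≥0) : ℝ≥0∞) := by
    intro K N
    have hZi : Integrable (ZZ μ ℱ A (c K) N) μ := intb ((ZZ_meas hA (hcm K) N).mono (ℱ.le _)) (ZZ_abs (hcb K) N)
    rw [eLpNorm_one_eq_lintegral_enorm, ← ofReal_integral_norm_eq_lintegral_enorm hZi]
    rw [ENNReal.ofReal_le_coe]
    have j0 : Integrable (fun ω => ZZ μ ℱ A (c K) N ω ^ 2) μ := intb (((ZZ_meas hA (hcm K) N).mono (ℱ.le _)).pow 2) (c := (N : ℝ) ^ 2) fun ω => by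
      rw [abs_pow]; exact pow_le_pow_left₀ (abs_nonneg _) (ZZ_abs (hcb K) N ω) 2
    calc ∫ ω, ‖ZZ μ ℱ A (c K) N ω‖ ∂μ ≤ ∫ ω, (1 + ZZ μ ℱ A (c K) N ω ^ 2) ∂μ := by
          apply integral_mono hZi.norm ((integrable_const _).add j0)
          intro ω
          show ‖ZZ μ ℱ A (c K) N ω‖ ≤ 1 + ZZ μ ℱ A (c K) N ω ^ 2
          rw [Real.norm_eq_abs, ← sq_abs (ZZ μ ℱ A (c K) N ω)]
          nlinarith [abs_nonneg (ZZ μ ℱ A (c K) N ω), sq_nonneg (|ZZ μ ℱ A (c K) N ω| - 1)]
      _ = 1 + ∫ ω, ZZ μ ℱ A (c K) N ω ^ 2 ∂μ := by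
          rw [integral_add (integrable_const _) j0, integral_const, probReal_univ, one_smul]
      _ ≤ 1 + ∫ ω, ∑ n ∈ Finset.range N, c K n ω ^ 2 * DD' μ ℱ A n ω ∂μ := by linarith [ZZ_sq (μ := μ) hA (hcm K) (hcb K) N]
      _ ≤ 1 + ∫ _, (K : ℝ) ∂μ := by
          have hSi : Integrable (fun ω => ∑ n ∈ Finset.range N, c K n ω ^ 2 * DD' μ ℱ A n ω) μ := by
            refine intb (c := K) (Finset.stronglyMeasurable_fun_sum _ fun n _ => (((hcm K n).mono (ℱ.le _)).pow 2).mul ((DD'_meas n).mono (ℱ.le _))) fun ω => ?_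
            rw [abs_of_nonneg (Finset.sum_nonneg fun n _ => mul_nonneg (sq_nonneg _) (DD'_bd n ω).1)]
            exact hsum K N ω
          have := integral_mono hSi (integrable_const (K : ℝ)) (hsum K N)
          linarith
      _ = ((1 + K : ℕ) : ℝ≥0) := by
          rw [integral_const, probReal_univ, one_smul]
          push_cast
          rfl
  have h1 : ∀ᵐ ω ∂μ, ∀ K : ℕ, Tendsto (fun N => ZZ μ ℱ A (c K) N ω) atTop (𝓝 (ℱ.limitProcess (ZZ μ ℱ A (c K)) μ ω)) :=
    ae_all_iff.2 fun K => (ZZ_mart (μ := μ) hA (hcm K) (hcb K)).submartingale.ae_tendsto_limitProcess (hb K)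
  filter_upwards [h1, DD'_ae (μ := μ) hA] with ω hω hDd
  rintro ⟨K₀, hK₀⟩
  have hVe : ∀ N, V N ω = ∑ n ∈ Finset.range N, w n ω * dens μ ℱ A n ω := fun N => by
    simp only [hV]
    exact Finset.sum_congr rfl fun n _ => by rw [hDd n]
  obtain ⟨K, hK⟩ := exists_nat_ge K₀
  have hce : ∀ n, c K n ω = w n ω := fun n => by
    have : ω ∈ {ω | V (n + 1) ω ≤ K} := by
      show V (n + 1) ω ≤ K
      rw [hVe]
      exact (hK₀ _).trans hK
    simp only [hc]
    rw [indicator_of_mem this]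
  obtain ⟨B, hB⟩ := (hω K).bddAbove_range
  refine ⟨B + K, fun N => ?_⟩
  have h2 : ZZ μ ℱ A (c K) N ω = (∑ n ∈ Finset.range N, w n ω * J1 A (n + 1) ω) - V N ω := by
    have : ∀ N, ZZ μ ℱ A (c K) N ω = (∑ n ∈ Finset.range N, w n ω * J1 A (n + 1) ω) - V N ω := by
      intro N
      induction N with
      | zero => simp [ZZ, hV]
      | succ N ih =>
        rw [ZZ_succ, ih, Finset.sum_range_succ, hVs, hce]
        ring
    exact this N
  have h3 : ZZ μ ℱ A (c K) N ω ≤ B := hB (mem_range_self N)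
  have h4 : V N ω ≤ K := by rw [hVe]; exact (hK₀ N).trans hK
  linarith

/-- the law with a deterministic profile, both directions -/
theorem rho_law (hA : ∀ n, MeasurableSet[ℱ n] (A n)) (ρ : ℕ → ℝ) (hρ : ∀ n, 0 ≤ ρ n)
    (hd : ∀ᵐ ω ∂μ, ∀ ε : ℝ, 0 < ε → ∀ᶠ n : ℕ in atTop, |dens μ ℱ A n ω - ρ (n + 1)| ≤ ε * ρ (n + 1))
    (w : ℕ → Ω → ℝ) (hw : ∀ n, StronglyMeasurable[ℱ n] (w n)) (h01 : ∀ n ω, 0 ≤ w n ω ∧ w n ω ≤ 1) :
    ∀ᵐ ω ∂μ,
      (Tendsto (fun N => ∑ n ∈ Finset.range N, w n ω * ρ (n + 1)) atTop atTop →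
        Tendsto (fun N => (∑ n ∈ Finset.range N, w n ω * J1 A (n + 1) ω) / ∑ n ∈ Finset.range N, w n ω * ρ (n + 1))
          atTop (𝓝 1)) ∧
      (Tendsto (fun N => ∑ n ∈ Finset.range N, w n ω * J1 A (n + 1) ω) atTop atTop →
        Tendsto (fun N => ∑ n ∈ Finset.range N, w n ω * ρ (n + 1)) atTop atTop) := by
  filter_upwards [levy (μ := μ) hA w hw h01, levy_conv (μ := μ) hA w hw h01, hd] with ω h1 h1' h2
  constructor
  · intro h3
    have h4 : (fun N : ℕ => ∑ n ∈ Finset.range N, (w n ω * dens μ ℱ A n ω - w n ω * ρ (n + 1))) =o[atTop]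
        fun N : ℕ => ∑ n ∈ Finset.range N, w n ω * ρ (n + 1) := by
      apply IsLittleO.sum_range
      · rw [isLittleO_iff]
        intro ε hε
        filter_upwards [h2 ε hε] with n hn
        rw [← mul_sub, norm_mul, norm_mul, Real.norm_eq_abs, Real.norm_eq_abs, Real.norm_eq_abs, abs_of_nonneg (hρ (n + 1))]
        calc |w n ω| * |dens μ ℱ A n ω - ρ (n + 1)| ≤ |w n ω| * (ε * ρ (n + 1)) :=
              mul_le_mul_of_nonneg_left hn (abs_nonneg _)
          _ = ε * (|w n ω| * ρ (n + 1)) := by ring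
      · intro n
        exact mul_nonneg (h01 n ω).1 (hρ _)
      · exact h3
    have h5 := h4.tendsto_div_nhds_zero
    have h6 : Tendsto (fun N : ℕ => (∑ n ∈ Finset.range N, w n ω * dens μ ℱ A n ω) / ∑ n ∈ Finset.range N, w n ω * ρ (n + 1))
        atTop (𝓝 1) := by
      have h7 := h5.add_const 1
      rw [zero_add] at h7
      refine h7.congr' ?_
      filter_upwards [h3.eventually_gt_atTop 0] with N hN
      rw [Finset.sum_sub_distrib]
      field_simp
      ring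
    have h8 : Tendsto (fun N : ℕ => ∑ n ∈ Finset.range N, w n ω * dens μ ℱ A n ω) atTop atTop := by
      have h9 := h6.pos_mul_atTop one_pos h3
      refine h9.congr' ?_
      filter_upwards [h3.eventually_gt_atTop 0] with N hN
      field_simp
    have h9 := (h1 h8).mul h6
    rw [one_mul] at h9
    refine h9.congr' ?_
    filter_upwards [h8.eventually_gt_atTop 0] with N hN
    field_simp
  · intro h3
    have hmono : Monotone (fun N => ∑ n ∈ Finset.range N, w n ω * ρ (n + 1)) := monotone_nat_of_le_succ fun N => by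
      rw [Finset.sum_range_succ]
      have := mul_nonneg (h01 N ω).1 (hρ (N + 1))
      linarith
    by_contra hcon
    rw [Filter.tendsto_atTop_atTop] at hcon
    push Not at hcon
    obtain ⟨B, hB⟩ := hcon
    have hB' : ∀ N, ∑ n ∈ Finset.range N, w n ω * ρ (n + 1) ≤ B := fun N => by
      obtain ⟨M, hM1, hM2⟩ := hB N
      exact (hmono hM1).trans hM2.le
    obtain ⟨n₀, hn₀⟩ := eventually_atTop.1 (h2 1 one_pos)
    have h4 : ∃ K : ℝ, ∀ N, ∑ n ∈ Finset.range N, w n ω * dens μ ℱ A n ω ≤ K := by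
      set G := ∑ n ∈ Finset.range n₀, |w n ω * dens μ ℱ A n ω| with hG
      have key : ∀ N, ∑ n ∈ Finset.range N, w n ω * dens μ ℱ A n ω ≤ G + 2 * ∑ n ∈ Finset.range N, w n ω * ρ (n + 1) := by
        intro N
        have e1 : ∀ n ∈ Finset.range N, w n ω * dens μ ℱ A n ω ≤
            (if n < n₀ then |w n ω * dens μ ℱ A n ω| else 0) + 2 * (w n ω * ρ (n + 1)) := by
          intro n _
          have hp := mul_nonneg (h01 n ω).1 (hρ (n + 1))
          by_cases hn : n < n₀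
          · rw [if_pos hn]
            have := le_abs_self (w n ω * dens μ ℱ A n ω)
            linarith
          · rw [if_neg hn]
            have h5 := (abs_le.1 (hn₀ n (by omega))).2
            have h6 : dens μ ℱ A n ω ≤ 2 * ρ (n + 1) := by linarith
            have := mul_le_mul_of_nonneg_left h6 (h01 n ω).1
            linarith
        refine (Finset.sum_le_sum e1).trans ?_
        rw [Finset.sum_add_distrib, ← Finset.mul_sum]
        have e2 : ∑ n ∈ Finset.range N, (if n < n₀ then |w n ω * dens μ ℱ A n ω| else 0) ≤ G := by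
          rw [← Finset.sum_filter]
          refine Finset.sum_le_sum_of_subset_of_nonneg ?_ fun _ _ _ => abs_nonneg _
          intro n hn
          exact Finset.mem_range.2 (Finset.mem_filter.1 hn).2
        linarith
      exact ⟨G + 2 * B, fun N => (key N).trans (by linarith [hB' N])⟩
    obtain ⟨K, hK⟩ := h1' h4
    obtain ⟨N, hN⟩ := (h3.eventually_gt_atTop K).exists
    exact absurd (hK N) (not_le.2 hN)

lemma J1_zero (h0 : A 0 = ∅) (ω : Ω) : J1 A 0 ω = 0 := by
  unfold J1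
  rw [h0, indicator_empty]

/-- the law for the pairs -/
theorem two_law (hA : ∀ n, MeasurableSet[ℱ n] (A n)) (h0 : A 0 = ∅) (ρ : ℕ → ℝ) (hρ : ∀ n, 0 ≤ ρ n ∧ ρ n ≤ 1) (hρ0 : ρ 0 = 0)
    (hd : ∀ᵐ ω ∂μ, ∀ ε : ℝ, 0 < ε → ∀ᶠ n : ℕ in atTop, |dens μ ℱ A n ω - ρ (n + 1)| ≤ ε * ρ (n + 1))
    (c : ℕ → Ω → ℝ) (hc : ∀ n, StronglyMeasurable[ℱ (n - 1)] (c n)) (h01 : ∀ n ω, 0 ≤ c n ω ∧ c n ω ≤ 1) :
    ∀ᵐ ω ∂μ,
      (Tendsto (fun N => ∑ t ∈ Finset.range N, c t ω * (ρ t * ρ (t + 2))) atTop atTop →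
        Tendsto (fun N => (∑ t ∈ Finset.range N, c t ω * (J1 A t ω * J1 A (t + 2) ω)) /
          ∑ t ∈ Finset.range N, c t ω * (ρ t * ρ (t + 2))) atTop (𝓝 1)) ∧
      (Tendsto (fun N => ∑ t ∈ Finset.range N, c t ω * (J1 A t ω * J1 A (t + 2) ω)) atTop atTop →
        Tendsto (fun N => ∑ t ∈ Finset.range N, c t ω * (ρ t * ρ (t + 2))) atTop atTop) := by
  have hρ' : ∀ n, 0 ≤ ρ n := fun n => (hρ n).1
  -- first weights
  set w : ℕ → Ω → ℝ := fun m => match m with
    | 0 => fun _ => 0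
    | t + 1 => fun ω => c t ω * J1 A t ω with hw
  have hwm : ∀ m, StronglyMeasurable[ℱ m] (w m) := by
    intro m
    cases m with
    | zero => exact stronglyMeasurable_const
    | succ t =>
      exact ((hc t).mono (ℱ.mono (by omega))).mul ((J1_meas hA t).mono (ℱ.mono (by omega)))
  have hw01 : ∀ m ω, 0 ≤ w m ω ∧ w m ω ≤ 1 := by
    intro m ω
    cases m with
    | zero => exact ⟨le_rfl, zero_le_one⟩
    | succ t => exact ⟨mul_nonneg (h01 t ω).1 (J1_01 t ω).1, mul_le_one₀ (h01 t ω).2 (J1_01 t ω).1 (J1_01 t ω).2⟩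
  set w' : ℕ → Ω → ℝ := fun n ω => c (n + 1) ω * ρ (n + 3) with hw'
  have hwm' : ∀ m, StronglyMeasurable[ℱ m] (w' m) := by
    intro m
    have h1 := hc (m + 1)
    rw [Nat.add_sub_cancel] at h1
    exact h1.mul stronglyMeasurable_const
  have hw01' : ∀ m ω, 0 ≤ w' m ω ∧ w' m ω ≤ 1 := fun m ω =>
    ⟨mul_nonneg (h01 _ ω).1 (hρ _).1, mul_le_one₀ (h01 _ ω).2 (hρ _).1 (hρ _).2⟩
  filter_upwards [rho_law (μ := μ) hA ρ hρ' hd w hwm hw01, rho_law (μ := μ) hA ρ hρ' hd w' hwm' hw01'] with ω h1 h2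
  set T : ℕ → ℝ := fun N => ∑ t ∈ Finset.range N, c t ω * (J1 A t ω * J1 A (t + 2) ω) with hT
  set U : ℕ → ℝ := fun N => ∑ t ∈ Finset.range N, c t ω * (J1 A t ω * ρ (t + 2)) with hU
  set V : ℕ → ℝ := fun N => ∑ t ∈ Finset.range N, c t ω * (ρ t * ρ (t + 2)) with hV
  have e1 : ∀ N, ∑ n ∈ Finset.range (N + 1), w n ω * J1 A (n + 1) ω = T N := fun N => by
    rw [Finset.sum_range_succ']
    simp only [hw, hT, zero_mul, add_zero]
    exact Finset.sum_congr rfl fun n _ => by ring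
  have e2 : ∀ N, ∑ n ∈ Finset.range (N + 1), w n ω * ρ (n + 1) = U N := fun N => by
    rw [Finset.sum_range_succ']
    simp only [hw, hU, zero_mul, add_zero]
    exact Finset.sum_congr rfl fun n _ => by ring
  have e3 : ∀ N, ∑ n ∈ Finset.range N, w' n ω * J1 A (n + 1) ω = U (N + 1) := fun N => by
    simp only [hU]
    rw [Finset.sum_range_succ', J1_zero h0]
    simp only [hw', zero_mul, mul_zero, add_zero]
    exact Finset.sum_congr rfl fun n _ => by ring
  have e4 : ∀ N, ∑ n ∈ Finset.range N, w' n ω * ρ (n + 1) = V (N + 1) := fun N => by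
    simp only [hV]
    rw [Finset.sum_range_succ', hρ0]
    simp only [hw', zero_mul, mul_zero, add_zero]
    exact Finset.sum_congr rfl fun n _ => by ring
  simp_rw [e3, e4] at h2
  have a1 : Tendsto U atTop atTop → Tendsto (fun N => T N / U N) atTop (𝓝 1) := by
    intro hu
    have h3 := h1.1 (by
      refine (tendsto_add_atTop_iff_nat 1).1 ?_
      simp_rw [e2]
      exact hu)
    have h4 := (tendsto_add_atTop_iff_nat (f := fun N => (∑ n ∈ Finset.range N, w n ω * J1 A (n + 1) ω) /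
      ∑ n ∈ Finset.range N, w n ω * ρ (n + 1)) 1).2 h3
    simp_rw [e1, e2] at h4
    exact h4
  have a2 : Tendsto T atTop atTop → Tendsto U atTop atTop := by
    intro ht
    have h3 := h1.2 (by
      refine (tendsto_add_atTop_iff_nat 1).1 ?_
      simp_rw [e1]
      exact ht)
    have h4 := (tendsto_add_atTop_iff_nat (f := fun N => ∑ n ∈ Finset.range N, w n ω * ρ (n + 1)) 1).2 h3
    simp_rw [e2] at h4
    exact h4
  have a3 : Tendsto V atTop atTop → Tendsto (fun N => U N / V N) atTop (𝓝 1) := by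
    intro hv
    exact (tendsto_add_atTop_iff_nat (f := fun N => U N / V N) 1).1 (h2.1 ((tendsto_add_atTop_iff_nat 1).2 hv))
  have a4 : Tendsto U atTop atTop → Tendsto V atTop atTop := by
    intro hu
    exact (tendsto_add_atTop_iff_nat 1).1 (h2.2 ((tendsto_add_atTop_iff_nat 1).2 hu))
  constructor
  · intro hv
    have b1 := a3 hv
    have b2 : Tendsto U atTop atTop := by
      have h9 := b1.pos_mul_atTop one_pos hv
      refine h9.congr' ?_
      filter_upwards [hv.eventually_gt_atTop 0] with N hN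
      field_simp
    have b3 := (a1 b2).mul b1
    rw [one_mul] at b3
    refine b3.congr' ?_
    filter_upwards [b2.eventually_gt_atTop 0] with N hN
    show T N / U N * (U N / V N) = T N / V N
    exact div_mul_div_cancel₀ hN.ne'
  · intro ht
    exact a4 (a2 ht)

end Pool.Agent.N638.TW
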