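import Mathlib

/-!
# Patterns of residues of the successive elements of a set
-/

set_option autoImplicit false

open Filter Set
open scoped Topology

namespace Pool.Agent.N638.TW

lemma exists_of_lt_count (p : ℕ → Prop) [DecidablePred p] {m x : ℕ} (h : m < Nat.count p x) :
    ∃ y < x, p y ∧ Nat.count p y = m := by
  induction x with
  | zero => simp at h
  | succ x ih =>
    by_cases hm : m < Nat.count p x
    · obtain ⟨y, hy, h1⟩ := ih hm
      exact ⟨y, by omega, h1⟩
    · rw [Nat.count_succ] at h
      by_cases hx : p x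
      · rw [if_pos hx] at h
        exact ⟨x, Nat.lt_succ_self x, hx, by omega⟩
      · rw [if_neg hx] at h
        omega

lemma count_const (p : ℕ → Prop) [DecidablePred p] {a b : ℕ} (hab : a ≤ b) (h : ∀ n, a ≤ n → n < b → ¬ p n) :
    Nat.count p b = Nat.count p a := by
  induction b, hab using Nat.le_induction with
  | base => rfl
  | succ b hb ih =>
    rw [Nat.count_succ, if_neg (h b hb (Nat.lt_succ_self b)), add_zero]
    exact ih fun n h1 h2 => h n h1 (by omega)

/-- two sets that agree below `x` have the same first elements -/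
lemma nth_congr (p p' : ℕ → Prop) [DecidablePred p] [DecidablePred p'] {x : ℕ} (h : ∀ n < x, (p n ↔ p' n)) :
    Nat.count p x = Nat.count p' x ∧ ∀ m < Nat.count p x, Nat.nth p m = Nat.nth p' m := by
  have hc : ∀ y ≤ x, Nat.count p y = Nat.count p' y := by
    intro y
    induction y with
    | zero => intro _; simp
    | succ y ih =>
      intro hy
      rw [Nat.count_succ, Nat.count_succ, ih (by omega)]
      congr 1
      by_cases h1 : p y
      · rw [if_pos h1, if_pos ((h y (by omega)).1 h1)]
      · rw [if_neg h1, if_neg fun h2 => h1 ((h y (by omega)).2 h2)]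
  refine ⟨hc x le_rfl, fun m hm => ?_⟩
  obtain ⟨y, hy, hp, hcy⟩ := exists_of_lt_count p hm
  rw [← hcy, Nat.nth_count hp, hc y hy.le, Nat.nth_count ((h y hy).1 hp)]

/-- summation over the elements of a set -/
lemma sum_reindex (p : ℕ → Prop) [DecidablePred p] (g : ℕ → ℝ) (N : ℕ) :
    ∑ t ∈ Finset.range N, (if p t then g t else 0) = ∑ m ∈ Finset.range (Nat.count p N), g (Nat.nth p m) := by
  induction N with
  | zero => simp
  | succ N ih =>
    rw [Finset.sum_range_succ, ih, Nat.count_succ]
    by_cases h : p N
    · rw [if_pos h, if_pos h, Finset.sum_range_succ, Nat.nth_count h]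
    · rw [if_neg h, if_neg h, add_zero, add_zero]

open Classical in
/-- the number of the `n < M` such that the elements number `n, ..., n + k - 1` of the set have the residues
`e 0, ..., e (k - 1)` modulo `q` -/
noncomputable def G (p : ℕ → Prop) (q : ℕ) (e : ℕ → ℕ) (k M : ℕ) : ℝ :=
  ∑ n ∈ Finset.range M, if ∀ i < k, Nat.nth p (n + i) % q = e i then 1 else 0

open Classical in
/-- the last `k` of the elements below `x` have the residues `e 0, ..., e (k - 1)` modulo `q` -/
noncomputable def pat (p : ℕ → Prop) (q : ℕ) (e : ℕ → ℕ) (k x : ℕ) : Prop :=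
  k ≤ Nat.count p x ∧ ∀ i < k, Nat.nth p (Nat.count p x - k + i) % q = e i

open Classical in
lemma pat_congr {p p' : ℕ → Prop} {q : ℕ} {e : ℕ → ℕ} {k x : ℕ} (h : ∀ n < x, (p n ↔ p' n)) :
    pat p q e k x ↔ pat p' q e k x := by
  obtain ⟨h1, h2⟩ := nth_congr p p' h
  unfold pat
  rw [← h1]
  refine and_congr_right fun hk => forall₂_congr fun i hi => ?_
  rw [h2 _ (by omega)]

open Classical in
lemma pat_count {p : ℕ → Prop} {q : ℕ} {e : ℕ → ℕ} {k x y : ℕ} (h : Nat.count p x = Nat.count p y) :
    pat p q e k x ↔ pat p q e k y := by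
  unfold pat
  rw [h]

open Classical in
lemma T_eq {p : ℕ → Prop} (q : ℕ) (e : ℕ → ℕ) (k N : ℕ) :
    ∑ t ∈ Finset.range N, (if p t then (if pat p q e k t then (1 : ℝ) else 0) else 0) = G p q e k (Nat.count p N - k) := by
  rw [sum_reindex]
  have h1 : ∀ m < Nat.count p N, (if pat p q e k (Nat.nth p m) then (1 : ℝ) else 0) =
      if k ≤ m ∧ ∀ i < k, Nat.nth p (m - k + i) % q = e i then 1 else 0 := by
    intro m hm
    obtain ⟨y, hy, hp, hcy⟩ := exists_of_lt_count p hm
    have h2 : Nat.nth p m = y := by rw [← hcy, Nat.nth_count hp]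
    have h3 : Nat.count p (Nat.nth p m) = m := by rw [h2, hcy]
    congr 1
    apply propext
    unfold pat
    rw [h3]
  rw [Finset.sum_congr rfl fun m hm => h1 m (Finset.mem_range.1 hm)]
  generalize Nat.count p N = R
  unfold G
  induction R with
  | zero => simp
  | succ R ih =>
    rw [Finset.sum_range_succ, ih]
    by_cases hk : k ≤ R
    · rw [Nat.sub_add_comm hk, Finset.sum_range_succ]
      congr 1
      simp only [hk, true_and]
    · rw [if_neg (fun h => hk h.1), add_zero]
      congr 2
      omega

open Classical in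
lemma Te_eq {p : ℕ → Prop} (q : ℕ) (e : ℕ → ℕ) (k N : ℕ) :
    ∑ t ∈ Finset.range N, (if p t then (if pat p q e k t ∧ t % q = e k then (1 : ℝ) else 0) else 0) =
      G p q e (k + 1) (Nat.count p N - k) := by
  rw [sum_reindex]
  have h1 : ∀ m < Nat.count p N, (if pat p q e k (Nat.nth p m) ∧ Nat.nth p m % q = e k then (1 : ℝ) else 0) =
      if k ≤ m ∧ ∀ i < k + 1, Nat.nth p (m - k + i) % q = e i then 1 else 0 := by
    intro m hm
    obtain ⟨y, hy, hp, hcy⟩ := exists_of_lt_count p hm
    have h2 : Nat.nth p m = y := by rw [← hcy, Nat.nth_count hp]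
    have h3 : Nat.count p (Nat.nth p m) = m := by rw [h2, hcy]
    congr 1
    apply propext
    unfold pat
    rw [h3]
    constructor
    · rintro ⟨⟨h4, h5⟩, h6⟩
      refine ⟨h4, fun i hi => ?_⟩
      rcases Nat.lt_succ_iff_lt_or_eq.1 hi with h7 | h7
      · exact h5 i h7
      · rw [h7, Nat.sub_add_cancel h4, h6]
    · rintro ⟨h4, h5⟩
      refine ⟨⟨h4, fun i hi => h5 i (by omega)⟩, ?_⟩
      have := h5 k (by omega)
      rwa [Nat.sub_add_cancel h4] at this
  rw [Finset.sum_congr rfl fun m hm => h1 m (Finset.mem_range.1 hm)]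
  generalize Nat.count p N = R
  unfold G
  induction R with
  | zero => simp
  | succ R ih =>
    rw [Finset.sum_range_succ, ih]
    by_cases hk : k ≤ R
    · rw [Nat.sub_add_comm hk, Finset.sum_range_succ]
      congr 1
      simp only [hk, true_and]
    · rw [if_neg (fun h => hk h.1), add_zero]
      congr 2
      omega

/-- from the laws for the extensions to the frequencies of the patterns -/
theorem freq {p : ℕ → Prop} (hp : (Set.ofPred p).Infinite) (q : ℕ) (e : ℕ → ℕ) (ν : ℕ → ℝ) (hν : ∀ e, 0 ≤ ν e)
    (h : ∀ k, Tendsto (fun N => G p q e k (@Nat.count p (Classical.decPred p) N - k)) atTop atTop →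
      Tendsto (fun N => G p q e (k + 1) (@Nat.count p (Classical.decPred p) N - k) /
        G p q e k (@Nat.count p (Classical.decPred p) N - k)) atTop (𝓝 (ν (e k)))) (k : ℕ) :
    Tendsto (fun M : ℕ => G p q e k M / M) atTop (𝓝 (∏ i ∈ Finset.range k, ν (e i))) := by
  classical
  have hinst : ∀ N, @Nat.count p (Classical.decPred p) N = Nat.count p N := fun N => by congr
  simp_rw [hinst] at h
  have hG0 : ∀ k M, 0 ≤ G p q e k M := fun k M => by
    unfold G
    exact Finset.sum_nonneg fun n _ => by split_ifs <;> norm_num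
  have hmono : ∀ k M, G p q e (k + 1) M ≤ G p q e k M := fun k M => by
    unfold G
    refine Finset.sum_le_sum fun n _ => ?_
    by_cases h1 : ∀ i < k + 1, Nat.nth p (n + i) % q = e i
    · rw [if_pos h1, if_pos fun i hi => h1 i (by omega)]
    · rw [if_neg h1]
      split_ifs <;> norm_num
  have hshift : ∀ k M, Nat.count p (Nat.nth p (M + k)) - k = M := fun k M => by
    rw [Nat.count_nth_of_infinite hp]
    omega
  have hnth : ∀ k, Tendsto (fun M => Nat.nth p (M + k)) atTop atTop := fun k =>
    (Nat.nth_strictMono hp).tendsto_atTop.comp (tendsto_add_atTop_nat k)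
  have hcount : Tendsto (fun N => Nat.count p N) atTop atTop := by
    refine tendsto_atTop_atTop.2 fun b => ⟨Nat.nth p b, fun a ha => ?_⟩
    rw [← Nat.count_nth_of_infinite hp b]
    exact Nat.count_monotone p ha
  induction k with
  | zero =>
    simp only [Finset.range_zero, Finset.prod_empty]
    refine tendsto_const_nhds.congr' ?_
    filter_upwards [eventually_gt_atTop 0] with M hM
    unfold G
    simp only [not_lt_zero, IsEmpty.forall_iff, implies_true, if_true, Finset.sum_const, Finset.card_range, nsmul_eq_mul, mul_one]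
    have : (M : ℝ) ≠ 0 := by exact_mod_cast hM.ne'
    field_simp
  | succ k ih =>
    have hP : 0 ≤ ∏ i ∈ Finset.range k, ν (e i) := Finset.prod_nonneg fun i _ => hν _
    rw [Finset.prod_range_succ]
    rcases hP.eq_or_lt with h0 | h0
    · rw [← h0] at ih
      rw [← h0, zero_mul]
      refine squeeze_zero (fun M => div_nonneg (hG0 _ _) (Nat.cast_nonneg M)) (fun M => ?_) ih
      exact div_le_div_of_nonneg_right (hmono k M) (Nat.cast_nonneg M)
    · have h1 : Tendsto (fun M => G p q e k M) atTop atTop := by
        have h2 := ih.pos_mul_atTop h0 (tendsto_natCast_atTop_atTop (R := ℝ))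
        refine h2.congr' ?_
        filter_upwards [eventually_gt_atTop 0] with M hM
        have : (M : ℝ) ≠ 0 := by exact_mod_cast hM.ne'
        field_simp
      have h3 : Tendsto (fun N => G p q e k (Nat.count p N - k)) atTop atTop :=
        h1.comp ((tendsto_sub_atTop_nat k).comp hcount)
      have h4 := (h k h3).comp (hnth k)
      simp only [Function.comp_def, hshift] at h4
      have h5 := ih.mul h4
      refine h5.congr' ?_
      filter_upwards [h1.eventually_gt_atTop 0] with M hM
      field_simp

end Pool.Agent.N638.TW
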