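import Mathlib

/-!
# Sums of a slowly varying sequence against a periodic sequence of mean zero
-/

set_option autoImplicit false

open Filter Set
open scoped Topology

namespace Pool.Agent.N638.TW

/-- partial sums of a periodic sequence of mean zero are bounded -/
lemma psum_bdd {ψ : ℕ → ℝ} {D : ℕ} (hD : 0 < D) (hp : ∀ t, ψ (t + D) = ψ t) (h1 : ∀ t, |ψ t| ≤ 1)
    (h0 : ∑ t ∈ Finset.range D, ψ t = 0) (n : ℕ) : |∑ t ∈ Finset.range n, ψ t| ≤ D := by
  have hsmall : ∀ m, |∑ t ∈ Finset.range m, ψ t| ≤ m := fun m =>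
    (Finset.abs_sum_le_sum_abs _ _).trans ((Finset.sum_le_sum fun t _ => h1 t).trans (by simp))
  induction n using Nat.strong_induction_on with
  | _ n ih =>
    rcases lt_or_ge n D with h | h
    · exact (hsmall n).trans (by exact_mod_cast h.le)
    · have e : ∑ t ∈ Finset.range n, ψ t = ∑ t ∈ Finset.range (n - D), ψ t := by
        conv_lhs => rw [show n = D + (n - D) by omega]
        rw [Finset.sum_range_add, h0, zero_add]
        exact Finset.sum_congr rfl fun t _ => by rw [add_comm, hp]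
      rw [e]
      exact ih (n - D) (by omega)

lemma abel (f ψ : ℕ → ℝ) (N : ℕ) : ∑ t ∈ Finset.range N, f t * ψ t =
    f N * (∑ s ∈ Finset.range N, ψ s) - ∑ t ∈ Finset.range N, (f (t + 1) - f t) * ∑ s ∈ Finset.range (t + 1), ψ s := by
  induction N with
  | zero => simp
  | succ N ih =>
    rw [Finset.sum_range_succ, ih, Finset.sum_range_succ (fun t => (f (t + 1) - f t) * ∑ s ∈ Finset.range (t + 1), ψ s),
      Finset.sum_range_succ ψ]
    ring

lemma bv {L : ℕ → ℝ} (hL : ∀ n, 0 ≤ L n ∧ L n ≤ 1) (hanti : ∀ n, 2 ≤ n → L (n + 1) ≤ L n) (N : ℕ) :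
    ∑ t ∈ Finset.range N, |L (t + 1) - L t| ≤ 3 := by
  have h1 : ∀ t, |L (t + 1) - L t| ≤ 1 := fun t => by
    rw [abs_le]
    constructor <;> linarith [(hL t).1, (hL t).2, (hL (t + 1)).1, (hL (t + 1)).2]
  have key : ∀ N, ∑ t ∈ Finset.range (N + 2), |L (t + 1) - L t| ≤ 3 - L (N + 2) := by
    intro N
    induction N with
    | zero =>
      simp only [zero_add, Finset.sum_range_succ, Finset.sum_range_zero]
      have := h1 0
      have := h1 1
      have := (hL 2).2
      simp only [zero_add] at *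
      linarith
    | succ N ih =>
      rw [show N + 1 + 2 = (N + 2) + 1 by ring, Finset.sum_range_succ]
      have h2 := hanti (N + 2) (by omega)
      rw [abs_of_nonpos (by linarith)]
      linarith
  have h2 : ∑ t ∈ Finset.range N, |L (t + 1) - L t| ≤ ∑ t ∈ Finset.range (N + 2), |L (t + 1) - L t| :=
    Finset.sum_le_sum_of_subset_of_nonneg (Finset.range_mono (by omega)) fun _ _ _ => abs_nonneg _
  linarith [key N, (hL (N + 2)).1]

/-- the main estimate -/
theorem slow {c L ψ T : ℕ → ℝ} {D : ℕ} (hD : 0 < D) (hc : ∀ t, c t = 0 ∨ c t = 1)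
    (hL : ∀ n, 0 ≤ L n ∧ L n ≤ 1) (hanti : ∀ n, 2 ≤ n → L (n + 1) ≤ L n) (hL0 : Tendsto L atTop (𝓝 0))
    (hp : ∀ t, ψ (t + D) = ψ t) (h1 : ∀ t, |ψ t| ≤ 1) (h0 : ∑ t ∈ Finset.range D, ψ t = 0)
    (hT : Tendsto T atTop atTop) (hch : ∀ N, ∑ t ∈ Finset.range N, |c (t + 1) - c t| ≤ 1 + 2 * T N) :
    Tendsto (fun N => (∑ t ∈ Finset.range N, c t * L t * ψ t) / T N) atTop (𝓝 0) := by
  have hc01 : ∀ t, 0 ≤ c t ∧ c t ≤ 1 := fun t => by
    rcases hc t with h | h <;> rw [h] <;> norm_num
  have hd1 : ∀ t, |c (t + 1) - c t| ≤ 1 := fun t => by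
    rw [abs_le]
    constructor <;> linarith [(hc01 t).1, (hc01 t).2, (hc01 (t + 1)).1, (hc01 (t + 1)).2]
  have hbd : ∀ N, |∑ t ∈ Finset.range N, c t * L t * ψ t| ≤
      D * (4 + ∑ t ∈ Finset.range N, |c (t + 1) - c t| * L (t + 1)) := by
    intro N
    rw [abel (fun t => c t * L t) ψ N]
    have hDr : (0 : ℝ) ≤ D := Nat.cast_nonneg D
    have e1 : |c N * L N * ∑ s ∈ Finset.range N, ψ s| ≤ D := by
      rw [abs_mul, abs_mul, abs_of_nonneg (hc01 N).1, abs_of_nonneg (hL N).1]
      have h2 := psum_bdd hD hp h1 h0 N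
      have h3 : c N * L N ≤ 1 := mul_le_one₀ (hc01 N).2 (hL N).1 (hL N).2
      calc c N * L N * |∑ s ∈ Finset.range N, ψ s| ≤ 1 * D :=
            mul_le_mul h3 h2 (abs_nonneg _) zero_le_one
        _ = D := one_mul _
    have e2 : |∑ t ∈ Finset.range N, (c (t + 1) * L (t + 1) - c t * L t) * ∑ s ∈ Finset.range (t + 1), ψ s| ≤
        D * (3 + ∑ t ∈ Finset.range N, |c (t + 1) - c t| * L (t + 1)) := by
      refine (Finset.abs_sum_le_sum_abs _ _).trans ?_
      have e3 : ∀ t ∈ Finset.range N, |(c (t + 1) * L (t + 1) - c t * L t) * ∑ s ∈ Finset.range (t + 1), ψ s| ≤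
          D * (|L (t + 1) - L t| + |c (t + 1) - c t| * L (t + 1)) := by
        intro t _
        rw [abs_mul, mul_comm]
        refine mul_le_mul (psum_bdd hD hp h1 h0 (t + 1)) ?_ (abs_nonneg _) hDr
        have e4 : c (t + 1) * L (t + 1) - c t * L t = c t * (L (t + 1) - L t) + (c (t + 1) - c t) * L (t + 1) := by ring
        rw [e4]
        refine (abs_add_le _ _).trans ?_
        rw [abs_mul, abs_mul, abs_of_nonneg (hc01 t).1, abs_of_nonneg (hL (t + 1)).1]
        have := mul_le_mul_of_nonneg_right (hc01 t).2 (abs_nonneg (L (t + 1) - L t))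
        linarith
      refine (Finset.sum_le_sum e3).trans ?_
      rw [← Finset.mul_sum, Finset.sum_add_distrib]
      refine mul_le_mul_of_nonneg_left ?_ hDr
      linarith [bv hL hanti N]
    calc _ ≤ |c N * L N * ∑ s ∈ Finset.range N, ψ s| +
          |∑ t ∈ Finset.range N, (c (t + 1) * L (t + 1) - c t * L t) * ∑ s ∈ Finset.range (t + 1), ψ s| := abs_sub _ _
      _ ≤ _ := by
        have : D * (4 + ∑ t ∈ Finset.range N, |c (t + 1) - c t| * L (t + 1)) =
          D + D * (3 + ∑ t ∈ Finset.range N, |c (t + 1) - c t| * L (t + 1)) := by ring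
        rw [this]
        exact add_le_add e1 e2
  -- the error term
  have hX : Tendsto (fun N => (∑ t ∈ Finset.range N, |c (t + 1) - c t| * L (t + 1)) / T N) atTop (𝓝 0) := by
    rw [Metric.tendsto_nhds]
    intro ε hε
    obtain ⟨t₀, ht₀⟩ := eventually_atTop.1 (hL0.eventually (gt_mem_nhds (show (0 : ℝ) < ε / 4 by positivity)))
    filter_upwards [hT.eventually_gt_atTop 0, hT.eventually_gt_atTop ((t₀ + ε / 4) * (4 / ε))] with N hN hN2
    have e1 : ∑ t ∈ Finset.range N, |c (t + 1) - c t| * L (t + 1) ≤ t₀ + ε / 4 * (1 + 2 * T N) := by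
      have e2 : ∀ t ∈ Finset.range N, |c (t + 1) - c t| * L (t + 1) ≤ (if t < t₀ then 1 else 0) + ε / 4 * |c (t + 1) - c t| := by
        intro t _
        have hp := mul_nonneg (show 0 ≤ ε / 4 by positivity) (abs_nonneg (c (t + 1) - c t))
        by_cases h : t < t₀
        · rw [if_pos h]
          have : |c (t + 1) - c t| * L (t + 1) ≤ 1 := mul_le_one₀ (hd1 t) (hL _).1 (hL _).2
          linarith
        · rw [if_neg h, zero_add, mul_comm]
          exact mul_le_mul_of_nonneg_right (ht₀ (t + 1) (by omega)).le (abs_nonneg _)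
      refine (Finset.sum_le_sum e2).trans ?_
      rw [Finset.sum_add_distrib, ← Finset.mul_sum, Finset.sum_boole]
      have e3 : (((Finset.range N).filter fun t => t < t₀).card : ℝ) ≤ t₀ := by
        have : ((Finset.range N).filter fun t => t < t₀).card ≤ t₀ := by
          calc _ ≤ (Finset.range t₀).card := Finset.card_le_card fun t ht => Finset.mem_range.2 (Finset.mem_filter.1 ht).2
            _ = t₀ := Finset.card_range _
        exact_mod_cast this
      have e4 := mul_le_mul_of_nonneg_left (hch N) (show 0 ≤ ε / 4 by positivity)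
      linarith
    have e5 : 0 ≤ ∑ t ∈ Finset.range N, |c (t + 1) - c t| * L (t + 1) :=
      Finset.sum_nonneg fun t _ => mul_nonneg (abs_nonneg _) (hL _).1
    rw [Real.dist_eq, sub_zero, abs_of_nonneg (div_nonneg e5 hN.le), div_lt_iff₀ hN]
    have e6 : t₀ + ε / 4 < ε / 4 * T N := by
      have := mul_lt_mul_of_pos_left hN2 (show 0 < ε / 4 by positivity)
      have e7 : ε / 4 * ((t₀ + ε / 4) * (4 / ε)) = t₀ + ε / 4 := by field_simp
      linarith
    nlinarith
  have hY : Tendsto (fun N => D * (4 / T N + (∑ t ∈ Finset.range N, |c (t + 1) - c t| * L (t + 1)) / T N)) atTop (𝓝 (D * (0 + 0))) :=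
    ((tendsto_const_nhds.div_atTop hT).add hX).const_mul _
  rw [add_zero, mul_zero] at hY
  refine squeeze_zero_norm' ?_ hY
  filter_upwards [hT.eventually_gt_atTop 0] with N hN
  rw [Real.norm_eq_abs, abs_div, abs_of_pos hN, ← add_div, ← mul_div_assoc]
  exact div_le_div_of_nonneg_right (hbd N) hN.le

end Pool.Agent.N638.TW
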