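import Mathlib
import Pool.Agent.N638.TW.Conv
import Pool.Agent.N638.TW.Slow
import Pool.Agent.N638.TW.Seq
import Pool.Agent.R528.RM.TupQ

/-!
# Residues of successive pairs in the sieved sequential models
-/

set_option autoImplicit false
set_option linter.unusedSectionVars false

open MeasureTheory Filter Set Asymptotics
open scoped ENNReal Topology NNReal

namespace Pool.Agent.N638.TW

open Pool.Agent.R528.RM Pool.Agent.N740.HK

/-- changes of a sequence of zeros and ones -/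
lemma changes {c d : ℕ → ℝ} (hc : ∀ t, c t = 0 ∨ c t = 1) (hd : ∀ t, 0 ≤ d t)
    (h : ∀ t, c t = 1 → c (t + 1) = 0 → 1 ≤ d t) (N : ℕ) :
    ∑ t ∈ Finset.range N, |c (t + 1) - c t| ≤ 1 + 2 * ∑ t ∈ Finset.range N, d t := by
  have h1 : ∀ t ∈ Finset.range N, |c (t + 1) - c t| ≤ (c (t + 1) - c t) + 2 * d t := by
    intro t _
    have := hd t
    rcases hc t with h0 | h0 <;> rcases hc (t + 1) with h2 | h2
    · rw [h0, h2]; norm_num; linarith
    · rw [h0, h2]; norm_num; linarith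
    · have := h t h0 h2
      rw [h0, h2]; norm_num; linarith
    · rw [h0, h2]; norm_num; linarith
  refine (Finset.sum_le_sum h1).trans ?_
  rw [Finset.sum_add_distrib, ← Finset.mul_sum, Finset.sum_range_sub]
  have h3 : c N ≤ 1 := by rcases hc N with h0 | h0 <;> rw [h0] <;> norm_num
  have h4 : 0 ≤ c 0 := by rcases hc 0 with h0 | h0 <;> rw [h0] <;> norm_num
  linarith

section prof

/-- the size of the profile at a pair -/
noncomputable def LL (κ : ℝ) (t : ℕ) : ℝ := min 1 (κ / Real.log t) * min 1 (κ / Real.log ((t + 2 : ℕ) : ℝ))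

lemma mm_bd {κ : ℝ} (hκ : 0 ≤ κ) (t : ℕ) : 0 ≤ min 1 (κ / Real.log t) ∧ min 1 (κ / Real.log t) ≤ 1 :=
  ⟨le_min zero_le_one (div_nonneg hκ (Real.log_natCast_nonneg t)), min_le_left _ _⟩

lemma LL_bd {κ : ℝ} (hκ : 0 ≤ κ) (t : ℕ) : 0 ≤ LL κ t ∧ LL κ t ≤ 1 :=
  ⟨mul_nonneg (mm_bd hκ t).1 (mm_bd hκ (t + 2)).1, mul_le_one₀ (mm_bd hκ t).2 (mm_bd hκ (t + 2)).1 (mm_bd hκ (t + 2)).2⟩

lemma mm_anti {κ : ℝ} (hκ : 0 ≤ κ) {t : ℕ} (ht : 2 ≤ t) :
    min 1 (κ / Real.log ((t + 1 : ℕ) : ℝ)) ≤ min 1 (κ / Real.log t) := by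
  refine min_le_min le_rfl ?_
  have h1 : (2 : ℝ) ≤ t := by exact_mod_cast ht
  have h2 : 0 < Real.log (t : ℝ) := Real.log_pos (by linarith)
  refine div_le_div_of_nonneg_left hκ h2 (Real.log_le_log (by linarith) ?_)
  push_cast
  linarith

lemma LL_anti {κ : ℝ} (hκ : 0 ≤ κ) (t : ℕ) (ht : 2 ≤ t) : LL κ (t + 1) ≤ LL κ t := by
  unfold LL
  have h1 := mm_anti hκ ht
  have h2 := mm_anti hκ (show 2 ≤ t + 2 by omega)
  rw [show t + 1 + 2 = t + 2 + 1 by ring]
  exact mul_le_mul h1 h2 (mm_bd hκ _).1 (mm_bd hκ _).1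

lemma LL_lim {κ : ℝ} (hκ : 0 ≤ κ) : Tendsto (LL κ) atTop (𝓝 0) := by
  have h1 : Tendsto (fun t : ℕ => κ / Real.log t) atTop (𝓝 0) := tendsto_const_nhds.div_atTop tendsto_log
  refine squeeze_zero (fun t => (LL_bd hκ t).1) (fun t => ?_) h1
  unfold LL
  calc min 1 (κ / Real.log t) * min 1 (κ / Real.log ((t + 2 : ℕ) : ℝ)) ≤ min 1 (κ / Real.log t) * 1 :=
        mul_le_mul_of_nonneg_left (mm_bd hκ _).2 (mm_bd hκ _).1
    _ ≤ _ := by rw [mul_one]; exact min_le_right _ _

/-- both members are coprime to `W` -/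
def good2 (W t : ℕ) : Prop := Nat.Coprime t W ∧ Nat.Coprime (t + 2) W

instance (W : ℕ) : DecidablePred (good2 W) := fun t => by unfold good2; infer_instance

lemma rho_two (W t : ℕ) : rhoW W t * rhoW W (t + 2) = (if good2 W t then 1 else 0) * LL ((W : ℝ) / Nat.totient W) t := by
  unfold rhoW LL
  by_cases h1 : Nat.Coprime t W
  · by_cases h2 : Nat.Coprime (t + 2) W
    · rw [if_pos h1, if_pos h2, if_pos (show good2 W t from ⟨h1, h2⟩), one_mul]
    · rw [if_neg h2, if_neg (show ¬ good2 W t from fun h => h2 h.2), mul_zero, zero_mul]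
  · rw [if_neg h1, if_neg (show ¬ good2 W t from fun h => h1 h.1), zero_mul, zero_mul]

lemma good2_per (W t s : ℕ) : good2 W (t + s * W) ↔ good2 W t := by
  unfold good2
  rw [show t + s * W + 2 = (t + 2) + s * W by ring, Nat.coprime_add_mul_right_left, Nat.coprime_add_mul_right_left]

/-- the share of the residue class `e` modulo `q` among the admissible integers -/
noncomputable def nu (W q e : ℕ) : ℝ :=
  (((Finset.range (q * W)).filter fun t => t % q = e ∧ good2 W t).card : ℝ) /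
    ((Finset.range (q * W)).filter fun t => good2 W t).card

lemma nu_nonneg (W q e : ℕ) : 0 ≤ nu W q e := div_nonneg (Nat.cast_nonneg _) (Nat.cast_nonneg _)

lemma nu_le (W q e : ℕ) : nu W q e ≤ 1 := by
  unfold nu
  refine div_le_one_of_le₀ ?_ (Nat.cast_nonneg _)
  exact_mod_cast Finset.card_le_card fun t ht => by
    simp only [Finset.mem_filter] at ht ⊢
    exact ⟨ht.1, ht.2.2⟩

lemma good_pos (W q : ℕ) (hW : 2 ≤ W) (hq : 0 < q) : 0 < ((Finset.range (q * W)).filter fun t => good2 W t).card := by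
  rw [Finset.card_pos]
  have h1 : 2 ≤ q * W := by nlinarith
  refine ⟨q * W - 1, Finset.mem_filter.2 ⟨Finset.mem_range.2 (by omega), ?_, ?_⟩⟩
  · have h2 : Nat.Coprime (q * W - 1) (q * W) := by
      rw [Nat.coprime_comm]
      have := (Nat.coprime_self_sub_right (show 1 ≤ q * W by omega)).2 (Nat.coprime_one_right (q * W))
      exact this
    exact Nat.Coprime.coprime_mul_left_right h2
  · rw [show q * W - 1 + 2 = 1 + q * W by omega, Nat.coprime_add_mul_right_left]
    exact Nat.coprime_one_left W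

end prof

variable {Ω : Type} {m0 : MeasurableSpace Ω} {μ : Measure Ω} [IsProbabilityMeasure μ]
  {ℱ : Filtration ℕ m0} {A : ℕ → Set Ω}

lemma meas_dep (hA : ∀ n, MeasurableSet[ℱ n] (A n)) {t : ℕ} {s : Set Ω}
    (h : ∀ ω ω', (∀ n ≤ t, (ω ∈ A n ↔ ω' ∈ A n)) → ω ∈ s → ω' ∈ s) : MeasurableSet[ℱ t] s := by
  classical
  have e : s = ⋃ F ∈ ((Finset.range (t + 1)).powerset.filter fun F => ∃ ω ∈ s, ∀ n ≤ t, (ω ∈ A n ↔ n ∈ F)),
      ⋂ n ∈ Finset.range (t + 1), (if n ∈ F then A n else (A n)ᶜ) := by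
    ext ω
    simp only [mem_iUnion, mem_iInter, Finset.mem_filter, Finset.mem_powerset, exists_prop]
    constructor
    · intro hω
      refine ⟨(Finset.range (t + 1)).filter fun n => ω ∈ A n, ⟨Finset.filter_subset _ _, ω, hω, fun n hn => ?_⟩, fun n hn => ?_⟩
      · simp only [Finset.mem_filter, Finset.mem_range]
        exact ⟨fun h1 => ⟨by omega, h1⟩, fun h1 => h1.2⟩
      · by_cases h1 : ω ∈ A n
        · rw [if_pos (Finset.mem_filter.2 ⟨hn, h1⟩)]
          exact h1
        · have h3 : n ∉ (Finset.range (t + 1)).filter fun n => ω ∈ A n := fun h2 => h1 (Finset.mem_filter.1 h2).2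
          rw [if_neg h3]
          exact h1
    · rintro ⟨F, ⟨_, ω', hω', h1⟩, h2⟩
      refine h ω' ω (fun n hn => ?_) hω'
      rw [h1 n hn]
      have h3 := h2 n (Finset.mem_range.2 (by omega))
      by_cases h4 : n ∈ F
      · rw [if_pos h4] at h3
        exact ⟨fun _ => h3, fun _ => h4⟩
      · rw [if_neg h4] at h3
        exact ⟨fun h5 => absurd h5 h4, fun h5 => absurd h5 h3⟩
  rw [e]
  refine Finset.measurableSet_biUnion _ fun F _ => Finset.measurableSet_biInter _ fun n hn => ?_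
  have hn := Finset.mem_range.1 hn
  split_ifs
  · exact ℱ.mono (by omega) _ (hA n)
  · exact (ℱ.mono (by omega) _ (hA n)).compl

/-- `t` and `t + 2` are chosen -/
def PP (A : ℕ → Set Ω) (ω : Ω) (t : ℕ) : Prop := ω ∈ A t ∧ ω ∈ A (t + 2)

/-- the state before `t` -/
noncomputable def cc (A : ℕ → Set Ω) (q : ℕ) (e : ℕ → ℕ) (k t : ℕ) : Ω → ℝ :=
  {ω | pat (PP A ω) q e k (t - 2)}.indicator fun _ => 1

lemma cc_meas (hA : ∀ n, MeasurableSet[ℱ n] (A n)) (q : ℕ) (e : ℕ → ℕ) (k t : ℕ) :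
    StronglyMeasurable[ℱ (t - 1)] (cc A q e k t) := by
  refine (@stronglyMeasurable_const _ _ (ℱ (t - 1)) _ _).indicator (meas_dep hA fun ω ω' h1 h2 => ?_)
  refine (pat_congr fun n hn => ?_).1 h2
  unfold PP
  rw [h1 n (by omega), h1 (n + 2) (by omega)]

lemma cc_01 (q : ℕ) (e : ℕ → ℕ) (k t : ℕ) (ω : Ω) : cc A q e k t ω = 0 ∨ cc A q e k t ω = 1 := by
  unfold cc
  by_cases h : ω ∈ {ω | pat (PP A ω) q e k (t - 2)}
  · rw [indicator_of_mem h]; right; rfl
  · rw [indicator_of_notMem h]; left; rfl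

open Classical in
lemma cc_if (q : ℕ) (e : ℕ → ℕ) (k t : ℕ) (ω : Ω) : cc A q e k t ω = if pat (PP A ω) q e k (t - 2) then 1 else 0 := by
  unfold cc
  by_cases h : pat (PP A ω) q e k (t - 2)
  · rw [indicator_of_mem (show ω ∈ {ω | pat (PP A ω) q e k (t - 2)} from h), if_pos h]
  · rw [indicator_of_notMem (show ω ∉ {ω | pat (PP A ω) q e k (t - 2)} from h), if_neg h]

open Classical in
lemma JJ_eq (ω : Ω) (t : ℕ) : J1 A t ω * J1 A (t + 2) ω = if PP A ω t then 1 else 0 := by
  unfold J1 PP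
  by_cases h1 : ω ∈ A t
  · by_cases h2 : ω ∈ A (t + 2)
    · rw [indicator_of_mem h1, indicator_of_mem h2, if_pos ⟨h1, h2⟩, one_mul]
    · rw [indicator_of_notMem h2, if_neg (fun h => h2 h.2), mul_zero]
  · rw [indicator_of_notMem h1, if_neg (fun h => h1 h.1), zero_mul]

open Classical in
lemma count_back {ω : Ω} (hS : ∀ n, ω ∈ A n → n % 2 = 1 ∧ n % 3 ≠ 0) {t : ℕ} (ht : PP A ω t) :
    Nat.count (PP A ω) (t - 2) = Nat.count (PP A ω) t := by
  refine (count_const (PP A ω) (by omega) fun n h1 h2 h3 => ?_).symm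
  have a1 := hS _ ht.1
  have a2 := hS _ ht.2
  have a3 := hS _ h3.1
  have a4 := hS _ h3.2
  rcases (show n = t - 1 ∨ n = t - 2 by omega) with h4 | h4
  · omega
  · rcases (show n % 3 = 0 ∨ n % 3 = 1 ∨ n % 3 = 2 by omega) with h5 | h5 | h5 <;> omega

open Classical in
lemma T_G {ω : Ω} (hS : ∀ n, ω ∈ A n → n % 2 = 1 ∧ n % 3 ≠ 0) (q : ℕ) (e : ℕ → ℕ) (k N : ℕ) :
    ∑ t ∈ Finset.range N, cc A q e k t ω * (J1 A t ω * J1 A (t + 2) ω) =
      G (PP A ω) q e k (Nat.count (PP A ω) N - k) := by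
  rw [← T_eq]
  refine Finset.sum_congr rfl fun t _ => ?_
  rw [JJ_eq, cc_if]
  by_cases h : PP A ω t
  · rw [if_pos h, if_pos h, mul_one]
    congr 1
    exact propext (pat_count (count_back hS h))
  · rw [if_neg h, if_neg h, mul_zero]

open Classical in
lemma Te_G {ω : Ω} (hS : ∀ n, ω ∈ A n → n % 2 = 1 ∧ n % 3 ≠ 0) (q : ℕ) (e : ℕ → ℕ) (k N : ℕ) :
    ∑ t ∈ Finset.range N, (cc A q e k t ω * if t % q = e k then 1 else 0) * (J1 A t ω * J1 A (t + 2) ω) =
      G (PP A ω) q e (k + 1) (Nat.count (PP A ω) N - k) := by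
  rw [← Te_eq]
  refine Finset.sum_congr rfl fun t _ => ?_
  rw [JJ_eq, cc_if]
  by_cases h : PP A ω t
  · rw [if_pos h, if_pos h, mul_one]
    have h2 : pat (PP A ω) q e k (t - 2) ↔ pat (PP A ω) q e k t := pat_count (count_back hS h)
    by_cases h3 : pat (PP A ω) q e k t
    · by_cases h4 : t % q = e k
      · rw [if_pos (h2.2 h3), if_pos h4, if_pos (show pat (PP A ω) q e k t ∧ t % q = e k from ⟨h3, h4⟩), one_mul]
      · rw [if_neg h4, if_neg (show ¬ (pat (PP A ω) q e k t ∧ t % q = e k) from fun h5 => h4 h5.2), mul_zero]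
    · rw [if_neg (show ¬ pat (PP A ω) q e k (t - 2) from fun h5 => h3 (h2.1 h5)),
        if_neg (show ¬ (pat (PP A ω) q e k t ∧ t % q = e k) from fun h5 => h3 h5.1), zero_mul]
  · rw [if_neg h, if_neg h, mul_zero]

open Classical in
lemma cc_changes {ω : Ω} (hS : ∀ n, ω ∈ A n → n % 2 = 1 ∧ n % 3 ≠ 0) (q : ℕ) (e : ℕ → ℕ) (k N : ℕ) :
    ∑ t ∈ Finset.range N, |cc A q e k (t + 1) ω - cc A q e k t ω| ≤
      1 + 2 * ∑ t ∈ Finset.range N, cc A q e k t ω * (J1 A t ω * J1 A (t + 2) ω) := by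
  set d : ℕ → ℝ := fun t => match t with
    | 0 => 0
    | 1 => 0
    | s + 2 => cc A q e k s ω * (J1 A s ω * J1 A (s + 2) ω) with hd
  have hT0 : ∀ s, 0 ≤ cc A q e k s ω * (J1 A s ω * J1 A (s + 2) ω) := fun s =>
    mul_nonneg (by rcases cc_01 (A := A) q e k s ω with h | h <;> rw [h] <;> norm_num)
      (mul_nonneg (J1_01 s ω).1 (J1_01 _ ω).1)
  have hd0 : ∀ t, 0 ≤ d t := by
    intro t
    match t with
    | 0 => exact le_rfl
    | 1 => exact le_rfl
    | s + 2 => exact hT0 s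
  have h1 := changes (c := fun t => cc A q e k t ω) (d := d) (fun t => cc_01 q e k t ω) hd0 (fun t h1 h2 => ?_) N
  · refine h1.trans ?_
    have h2 : ∑ t ∈ Finset.range N, d t ≤ ∑ t ∈ Finset.range (N + 2), d t :=
      Finset.sum_le_sum_of_subset_of_nonneg (Finset.range_mono (by omega)) fun _ _ _ => hd0 _
    rw [Finset.sum_range_succ', Finset.sum_range_succ'] at h2
    simp only [hd, add_zero] at h2 ⊢
    linarith
  · simp only [cc_if] at h1 h2
    have h3 : pat (PP A ω) q e k (t - 2) := by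
      by_contra hcon
      rw [if_neg hcon] at h1
      exact zero_ne_one h1
    have h4 : ¬ pat (PP A ω) q e k (t + 1 - 2) := by
      intro hcon
      rw [if_pos hcon] at h2
      exact one_ne_zero h2
    match t with
    | 0 => exact absurd h3 h4
    | 1 => exact absurd h3 h4
    | s + 2 =>
      rw [show s + 2 - 2 = s by omega] at h3
      rw [show s + 2 + 1 - 2 = s + 1 by omega] at h4
      have h5 : PP A ω s := by
        by_contra hcon
        refine h4 ((pat_count ?_).1 h3)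
        rw [Nat.count_succ, if_neg hcon, add_zero]
      show 1 ≤ cc A q e k s ω * (J1 A s ω * J1 A (s + 2) ω)
      rw [JJ_eq, if_pos h5, cc_if, if_pos ((pat_count (count_back hS h5)).2 h3), mul_one]

/-- the law for one more residue -/
theorem core (hA : ∀ n, MeasurableSet[ℱ n] (A n)) (W : ℕ) (hW : 2 ≤ W) (h23 : ∀ n, Nat.Coprime n W → n % 2 = 1 ∧ n % 3 ≠ 0)
    (hcop : ∀ n, ¬ Nat.Coprime n W → A n = ∅)
    (hd : ∀ᵐ ω ∂μ, ∀ ε : ℝ, 0 < ε → ∀ᶠ n : ℕ in atTop, |dens μ ℱ A n ω - rhoW W (n + 1)| ≤ ε * rhoW W (n + 1))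
    (q : ℕ) (hq : 0 < q) (e : ℕ → ℕ) (k : ℕ) :
    ∀ᵐ ω ∂μ, Tendsto (fun N => G (PP A ω) q e k (@Nat.count (PP A ω) (Classical.decPred _) N - k)) atTop atTop →
      Tendsto (fun N => G (PP A ω) q e (k + 1) (@Nat.count (PP A ω) (Classical.decPred _) N - k) /
        G (PP A ω) q e k (@Nat.count (PP A ω) (Classical.decPred _) N - k)) atTop (𝓝 (nu W q (e k))) := by
  classical
  have hS : ∀ ω n, ω ∈ A n → n % 2 = 1 ∧ n % 3 ≠ 0 := fun ω n hn => by
    refine h23 n ?_
    by_contra hcon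
    rw [hcop n hcon] at hn
    exact hn
  have hW1 : 1 < W := by omega
  have h0 : A 0 = ∅ := hcop 0 (by
    intro h
    have := h23 0 h
    omega)
  have hρ0 : rhoW W 0 = 0 := by
    unfold rhoW
    rw [if_neg]
    intro h
    have := h23 0 h
    omega
  have hρ : ∀ n, 0 ≤ rhoW W n ∧ rhoW W n ≤ 1 := fun n => ⟨rhoW_nonneg W n, rhoW_le W n⟩
  set ie : ℕ → ℝ := fun t => if t % q = e k then 1 else 0 with hie
  have hie01 : ∀ t, 0 ≤ ie t ∧ ie t ≤ 1 := fun t => by
    simp only [hie]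
    split_ifs <;> norm_num
  have hcc01 : ∀ t ω, 0 ≤ cc A q e k t ω ∧ cc A q e k t ω ≤ 1 := fun t ω => by
    rcases cc_01 (A := A) q e k t ω with h | h <;> rw [h] <;> norm_num
  have L1 := two_law (μ := μ) hA h0 (rhoW W) hρ hρ0 hd (cc A q e k) (cc_meas hA q e k) hcc01
  have L2 := two_law (μ := μ) hA h0 (rhoW W) hρ hρ0 hd (fun t ω => cc A q e k t ω * ie t)
    (fun t => (cc_meas hA q e k t).mul stronglyMeasurable_const)
    (fun t ω => ⟨mul_nonneg (hcc01 t ω).1 (hie01 t).1, mul_le_one₀ (hcc01 t ω).2 (hie01 t).1 (hie01 t).2⟩)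
  filter_upwards [L1, L2] with ω g1 g2 hT
  set T : ℕ → ℝ := fun N => ∑ t ∈ Finset.range N, cc A q e k t ω * (J1 A t ω * J1 A (t + 2) ω) with hTd
  set V : ℕ → ℝ := fun N => ∑ t ∈ Finset.range N, cc A q e k t ω * (rhoW W t * rhoW W (t + 2)) with hVd
  set Te : ℕ → ℝ := fun N => ∑ t ∈ Finset.range N, cc A q e k t ω * ie t * (J1 A t ω * J1 A (t + 2) ω) with hTed
  set Ve : ℕ → ℝ := fun N => ∑ t ∈ Finset.range N, cc A q e k t ω * ie t * (rhoW W t * rhoW W (t + 2)) with hVed
  have i1 : ∀ N, G (PP A ω) q e k (@Nat.count (PP A ω) (Classical.decPred _) N - k) = T N := fun N => by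
    rw [hTd]
    simp only
    rw [T_G (hS ω)]
  have i2 : ∀ N, G (PP A ω) q e (k + 1) (@Nat.count (PP A ω) (Classical.decPred _) N - k) = Te N := fun N => by
    rw [hTed]
    simp only [hie]
    rw [Te_G (hS ω)]
  simp_rw [i1] at hT
  simp_rw [i1, i2]
  set κ : ℝ := (W : ℝ) / Nat.totient W with hκ
  have hκ0 : 0 ≤ κ := div_nonneg (Nat.cast_nonneg _) (Nat.cast_nonneg _)
  have hV : Tendsto V atTop atTop := g1.2 hT
  have hTV : Tendsto (fun N => T N / V N) atTop (𝓝 1) := g1.1 hV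
  set ν := nu W q (e k) with hν
  have hν0 : 0 ≤ ν := nu_nonneg W q (e k)
  have hν1 : ν ≤ 1 := nu_le W q (e k)
  have hgp : (0 : ℝ) < (((Finset.range (q * W)).filter fun t => good2 W t).card : ℝ) := by
    exact_mod_cast good_pos W q hW hq
  -- the periodic weight
  set ψ : ℕ → ℝ := fun t => (ie t - ν) * (if good2 W t then 1 else 0) with hψ
  have hmod : ∀ t, (t + q * W) % q = t % q := fun t => Nat.add_mul_mod_self_left t q W
  have hg : ∀ t, good2 W (t + q * W) ↔ good2 W t := fun t => good2_per W t q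
  have hψp : ∀ t, ψ (t + q * W) = ψ t := fun t => by
    simp only [hψ, hie, hmod, hg]
  have hψ1 : ∀ t, |ψ t| ≤ 1 := fun t => by
    simp only [hψ]
    have := hie01 t
    rw [abs_mul]
    refine mul_le_one₀ ?_ (abs_nonneg _) ?_
    · rw [abs_le]; constructor <;> linarith
    · split_ifs <;> norm_num
  have hψ0 : ∑ t ∈ Finset.range (q * W), ψ t = 0 := by
    have j1 : ∀ t, ψ t = (if t % q = e k ∧ good2 W t then (1 : ℝ) else 0) - ν * (if good2 W t then 1 else 0) := by
      intro t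
      simp only [hψ, hie]
      by_cases h1 : good2 W t
      · by_cases h2 : t % q = e k
        · rw [if_pos h1, if_pos h2, if_pos (show t % q = e k ∧ good2 W t from ⟨h2, h1⟩)]; ring
        · rw [if_pos h1, if_neg h2, if_neg (show ¬ (t % q = e k ∧ good2 W t) from fun h => h2 h.1)]; ring
      · rw [if_neg h1, if_neg (show ¬ (t % q = e k ∧ good2 W t) from fun h => h1 h.2)]; ring
    simp_rw [j1]
    rw [Finset.sum_sub_distrib, ← Finset.mul_sum, Finset.sum_boole, Finset.sum_boole, hν]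
    unfold nu
    rw [div_mul_cancel₀ _ hgp.ne', sub_self]
  have hch := fun N => cc_changes (A := A) (hS ω) q e k N
  have hslow := slow (c := fun t => cc A q e k t ω) (L := LL κ) (ψ := ψ) (T := T) (D := q * W)
    (Nat.mul_pos hq (by omega)) (fun t => cc_01 q e k t ω) (LL_bd hκ0) (LL_anti hκ0) (LL_lim hκ0) hψp hψ1 hψ0 hT hch
  have hdiff : ∀ N, ∑ t ∈ Finset.range N, cc A q e k t ω * LL κ t * ψ t = Ve N - ν * V N := by
    intro N
    simp only [hVed, hVd]
    rw [Finset.mul_sum, ← Finset.sum_sub_distrib]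
    refine Finset.sum_congr rfl fun t _ => ?_
    rw [rho_two]
    simp only [hψ]
    ring
  simp_rw [hdiff] at hslow
  have hVe : Tendsto (fun N => Ve N / V N) atTop (𝓝 ν) := by
    have h1 := (hslow.mul hTV).add_const ν
    rw [zero_mul, zero_add] at h1
    refine h1.congr' ?_
    filter_upwards [hT.eventually_gt_atTop 0, hV.eventually_gt_atTop 0] with N h2 h3
    field_simp
    ring
  have hVT : Tendsto (fun N => V N / T N) atTop (𝓝 1) := by
    have := hTV.inv₀ one_ne_zero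
    rw [inv_one] at this
    exact this.congr fun N => inv_div _ _
  rcases hν0.eq_or_lt with h5 | h5
  · -- no admissible integer in the class
    have h6 : ((Finset.range (q * W)).filter fun t => t % q = e k ∧ good2 W t).card = 0 := by
      have h7 : nu W q (e k) = 0 := by rw [← hν, ← h5]
      unfold nu at h7
      rcases div_eq_zero_iff.1 h7 with h8 | h8
      · exact_mod_cast h8
      · exact absurd h8 hgp.ne'
    rw [Finset.card_eq_zero] at h6
    have h7 : ∀ t, ¬ (t % q = e k ∧ good2 W t) := by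
      intro t ht
      have h8 : t % (q * W) ∈ (Finset.range (q * W)).filter fun t => t % q = e k ∧ good2 W t := by
        refine Finset.mem_filter.2 ⟨Finset.mem_range.2 (Nat.mod_lt _ (Nat.mul_pos hq (by omega))), ?_, ?_⟩
        · rw [Nat.mod_mul_right_mod]
          exact ht.1
        · have h9 := Nat.mod_add_div t (q * W)
          have h10 := good2_per W (t % (q * W)) (q * (t / (q * W)))
          rw [show t % (q * W) + q * (t / (q * W)) * W = t by rw [← h9]; simp only [Nat.add_mul_mod_self_left, Nat.mod_mod, Nat.add_mul_div_left _ _ (Nat.mul_pos hq (show 0 < W by omega)), Nat.mod_div_self, zero_add]; ring] at h10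
          exact h10.1 ht.2
      rw [h6] at h8
      exact absurd h8 (Finset.notMem_empty _)
    have h8 : ∀ N, Te N = 0 := by
      intro N
      simp only [hTed]
      refine Finset.sum_eq_zero fun t _ => ?_
      by_cases h9 : t % q = e k
      · have h10 : ¬ PP A ω t := by
          rintro ⟨h11, h12⟩
          refine h7 t ⟨h9, ?_, ?_⟩
          · by_contra hcon
            rw [hcop t hcon] at h11
            exact h11
          · by_contra hcon
            rw [hcop (t + 2) hcon] at h12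
            exact h12
        rw [JJ_eq, if_neg h10, mul_zero]
      · simp only [hie]
        rw [if_neg h9, mul_zero, zero_mul]
    rw [← h5]
    simp only [h8, zero_div]
    exact tendsto_const_nhds
  · have h6 : Tendsto Ve atTop atTop := by
      have h7 := hVe.pos_mul_atTop h5 hV
      refine h7.congr' ?_
      filter_upwards [hV.eventually_gt_atTop 0] with N hN
      field_simp
    have h7 := ((g2.1 h6).mul hVe).mul hVT
    rw [one_mul, mul_one] at h7
    refine h7.congr' ?_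
    filter_upwards [hT.eventually_gt_atTop 0, hV.eventually_gt_atTop 0, h6.eventually_gt_atTop 0] with N h8 h9 h10
    show Te N / Ve N * (Ve N / V N) * (V N / T N) = Te N / T N
    field_simp

end Pool.Agent.N638.TW
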