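import Mathlib
import Pool.Agent.N638.TW.Core

/-!
# Residues of successive pairs in the sieved sequential models: the frequencies of the patterns
-/

set_option autoImplicit false
set_option linter.unusedSectionVars false

open MeasureTheory Filter Set Asymptotics
open scoped ENNReal Topology NNReal

namespace Pool.Agent.N638.TW

open Pool.Agent.R528.RM Pool.Agent.N740.HK

lemma cop_iff (Q : Finset ℕ) (hQ : ∀ p ∈ Q, p.Prime) (n : ℕ) : Nat.Coprime n (∏ p ∈ Q, p) ↔ ∀ p ∈ Q, ¬ p ∣ n := by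
  rw [Nat.coprime_prod_right_iff]
  refine forall₂_congr fun p hp => ?_
  rw [Nat.coprime_comm]
  exact Nat.Prime.coprime_iff_not_dvd (hQ p hp)

lemma good2_iff (Q : Finset ℕ) (hQ : ∀ p ∈ Q, p.Prime) (t : ℕ) :
    good2 (∏ p ∈ Q, p) t ↔ ∀ p ∈ Q, ¬ p ∣ t ∧ ¬ p ∣ t + 2 := by
  unfold good2
  rw [cop_iff Q hQ, cop_iff Q hQ]
  exact ⟨fun h p hp => ⟨h.1 p hp, h.2 p hp⟩, fun h => ⟨fun p hp => (h p hp).1, fun p hp => (h p hp).2⟩⟩

lemma good2_modEq {W t t' : ℕ} (h : t ≡ t' [MOD W]) : good2 W t ↔ good2 W t' := by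
  unfold good2 Nat.Coprime
  rw [h.gcd_eq, (h.add_right 2).gcd_eq]

lemma W_mod (Q : Finset ℕ) (hQ : ∀ p ∈ Q, p.Prime) (h2 : 2 ∈ Q) : (∏ p ∈ Q, p) % 4 = 2 := by
  classical
  have h1 : ∏ p ∈ Q, p = 2 * ∏ p ∈ Q.erase 2, p := (Finset.mul_prod_erase Q (fun p => p) h2).symm
  have h3 : Nat.Coprime 2 (∏ p ∈ Q.erase 2, p) := by
    refine Nat.Coprime.prod_right fun p hp => ?_
    have h4 := Finset.mem_erase.1 hp
    exact (Nat.coprime_primes Nat.prime_two (hQ p h4.2)).2 (Ne.symm h4.1)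
  have h5 : (∏ p ∈ Q.erase 2, p) % 2 = 1 := Nat.odd_iff.1 (Nat.coprime_two_left.1 h3)
  rw [h1]
  omega

/-- the two odd classes modulo 4 have equal shares -/
lemma nu_four {W : ℕ} (hW : W % 4 = 2) : nu W 4 1 = 1 / 2 ∧ nu W 4 3 = 1 / 2 := by
  classical
  have hpos := good_pos W 4 (by omega) (by norm_num)
  have hodd : ∀ t, good2 W t → t % 2 = 1 := by
    intro t ht
    have h1 : Nat.Coprime t 2 := ht.1.coprime_dvd_right (by omega)
    exact Nat.odd_iff.1 (Nat.coprime_two_right.1 h1)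
  set F1 := (Finset.range (4 * W)).filter fun t => t % 4 = 1 ∧ good2 W t with hF1
  set F3 := (Finset.range (4 * W)).filter fun t => t % 4 = 3 ∧ good2 W t with hF3
  set F := (Finset.range (4 * W)).filter fun t => good2 W t with hF
  have hsum : F.card = F1.card + F3.card := by
    rw [← Finset.card_union_of_disjoint]
    · congr 1
      ext t
      simp only [hF, hF1, hF3, Finset.mem_union, Finset.mem_filter]
      constructor
      · rintro ⟨h1, h2⟩
        have := hodd t h2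
        rcases (show t % 4 = 1 ∨ t % 4 = 3 by omega) with h3 | h3
        · exact Or.inl ⟨h1, h3, h2⟩
        · exact Or.inr ⟨h1, h3, h2⟩
      · rintro (⟨h1, _, h2⟩ | ⟨h1, _, h2⟩) <;> exact ⟨h1, h2⟩
    · rw [Finset.disjoint_left]
      intro t h1 h2
      have h3 := (Finset.mem_filter.1 h1).2.1
      have h4 := (Finset.mem_filter.1 h2).2.1
      omega
  have hcong : ∀ a t, good2 W ((t + a * W) % (4 * W)) ↔ good2 W t := by
    intro a t
    refine good2_modEq ?_
    have h1 : (t + a * W) % (4 * W) ≡ t + a * W [MOD W] :=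
      (Nat.mod_modEq (t + a * W) (4 * W)).of_dvd (Dvd.intro_left 4 rfl)
    refine h1.trans ?_
    unfold Nat.ModEq
    exact Nat.add_mul_mod_self_right t a W
  have heq : F1.card = F3.card := by
    refine Finset.card_nbij' (fun t => (t + 1 * W) % (4 * W)) (fun t => (t + 3 * W) % (4 * W)) ?_ ?_ ?_ ?_
    · intro t ht
      have ht := Finset.mem_filter.1 (Finset.mem_coe.1 ht)
      refine Finset.mem_coe.2 (Finset.mem_filter.2 ⟨Finset.mem_range.2 (Nat.mod_lt _ (by omega)), ?_, (hcong 1 t).2 ht.2.2⟩)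
      rw [Nat.mod_mod_of_dvd _ (Dvd.intro W rfl)]
      have := ht.2.1
      omega
    · intro t ht
      have ht := Finset.mem_filter.1 (Finset.mem_coe.1 ht)
      refine Finset.mem_coe.2 (Finset.mem_filter.2 ⟨Finset.mem_range.2 (Nat.mod_lt _ (by omega)), ?_, (hcong 3 t).2 ht.2.2⟩)
      rw [Nat.mod_mod_of_dvd _ (Dvd.intro W rfl)]
      have := ht.2.1
      omega
    · intro t ht
      have ht := Finset.mem_range.1 (Finset.mem_filter.1 (Finset.mem_coe.1 ht)).1
      show ((t + 1 * W) % (4 * W) + 3 * W) % (4 * W) = t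
      rw [Nat.mod_add_mod, show t + 1 * W + 3 * W = t + 4 * W by ring, Nat.add_mod_right, Nat.mod_eq_of_lt ht]
    · intro t ht
      have ht := Finset.mem_range.1 (Finset.mem_filter.1 (Finset.mem_coe.1 ht)).1
      show ((t + 3 * W) % (4 * W) + 1 * W) % (4 * W) = t
      rw [Nat.mod_add_mod, show t + 3 * W + 1 * W = t + 4 * W by ring, Nat.add_mod_right, Nat.mod_eq_of_lt ht]
  have hF3pos : (0 : ℝ) < F3.card := by
    have : 0 < F3.card := by omega
    exact_mod_cast this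
  have e1 : (F.card : ℝ) = F3.card + F3.card := by
    rw [hsum, heq]
    push_cast
    ring
  constructor
  · show (F1.card : ℝ) / F.card = 1 / 2
    rw [e1, heq]
    field_simp
    norm_num
  · show (F3.card : ℝ) / F.card = 1 / 2
    rw [e1]
    field_simp
    norm_num

variable {Ω : Type} {m0 : MeasurableSpace Ω} {μ : Measure Ω} [IsProbabilityMeasure μ]
  {ℱ : Filtration ℕ m0} {A : ℕ → Set Ω}

/-- infinitely many pairs -/
theorem inf_pairs (hA : ∀ n, MeasurableSet[ℱ n] (A n)) (Q : Finset ℕ) (hQ : ∀ p ∈ Q, p.Prime)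
    (hcop : ∀ n, (∃ p ∈ Q, p ∣ n) → A n = ∅)
    (hd : ∀ᵐ ω ∂μ, Tendsto (fun n : ℕ => dens μ ℱ A n ω * Real.log n)
      (atTop ⊓ 𝓟 {n : ℕ | ∀ p ∈ Q, ¬ p ∣ n + 1}) (𝓝 (∏ p ∈ Q, (1 - 1 / (p : ℝ))⁻¹))) :
    ∀ᵐ ω ∂μ, (Set.ofPred (PP A ω)).Infinite := by
  classical
  set H : Finset ℕ := {0, 2} with hH
  have hcard : H.card = 2 := by rw [hH]; rfl
  have hs : 0 < singH Q H := by
    unfold singH
    refine Finset.prod_pos fun p hp => ?_
    have hp2 : (2 : ℝ) ≤ p := by exact_mod_cast (hQ p hp).two_le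
    have h1 : 1 / (p : ℝ) ≤ 1 / 2 := one_div_le_one_div_of_le (by norm_num) hp2
    refine div_pos ?_ (pow_pos (by linarith) _)
    have h2 : occ H p < p := by
      rcases (hQ p hp).eq_two_or_odd with h | h
      · rw [h]
        decide
      · have h3 : occ H p ≤ 2 := by
          unfold occ
          exact Finset.card_image_le.trans hcard.le
        have := (hQ p hp).two_le
        omega
    have h3 : (occ H p : ℝ) / p < 1 := by
      rw [div_lt_one (by linarith)]
      exact_mod_cast h2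
    linarith
  filter_upwards [tup_sieved (μ := μ) hA Q hQ hcop hd] with ω hω
  intro hfin
  have hx : Tendsto (fun x : ℕ => (x : ℝ) / Real.log x ^ 2) atTop atTop := by
    have h20 : Tendsto (fun x : ℝ => Real.log x ^ 2 / x ^ (1 : ℝ)) atTop (𝓝 0) :=
      (isLittleO_log_rpow_rpow_atTop ((2 : ℕ) : ℝ) one_pos).tendsto_div_nhds_zero.congr fun x => by
        rw [Real.rpow_natCast]
    have h21 : Tendsto (fun x : ℕ => Real.log (x : ℝ) ^ 2 / x) atTop (𝓝[>] 0) := by
      rw [tendsto_nhdsWithin_iff]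
      refine ⟨(h20.comp tendsto_natCast_atTop_atTop).congr fun x => by simp, ?_⟩
      filter_upwards [eventually_gt_atTop 1] with n hn
      have hn' : (1 : ℝ) < n := by exact_mod_cast hn
      have hl : 0 < Real.log (n : ℝ) := Real.log_pos hn'
      exact div_pos (pow_pos hl _) (by linarith)
    exact (h21.inv_tendsto_nhdsGT_zero).congr fun x => by simp
  have h1 := hω 2 (singH Q H / 2) (by positivity)
  have h2 := (hx.const_mul_atTop (show 0 < singH Q H / 2 by positivity)).eventually_gt_atTop (hfin.toFinset.card : ℝ)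
  obtain ⟨x, h3, h4, h5⟩ := (h1.and (h2.and (eventually_gt_atTop 3))).exists
  have h6 := (abs_le.1 (h3 H (by
    intro h hh
    rw [hH] at hh
    simp only [Finset.mem_insert, Finset.mem_singleton] at hh
    rw [Finset.mem_range]
    omega) hcard)).1
  have hx' : (3 : ℝ) < x := by exact_mod_cast h5
  have hL : 0 < Real.log (x : ℝ) := Real.log_pos (by linarith)
  have h7 : singH Q H / 2 * (x / Real.log x ^ 2) ≤ TN A (rhoW (∏ p ∈ Q, p)) x H ∅ ω := by
    have h8 : singH Q H / 2 ≤ TN A (rhoW (∏ p ∈ Q, p)) x H ∅ ω * Real.log x ^ 2 / x := by linarith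
    rw [le_div_iff₀ (by linarith)] at h8
    rw [← mul_div_assoc, div_le_iff₀ (by positivity)]
    exact h8
  have h9 : TN A (rhoW (∏ p ∈ Q, p)) x H ∅ ω ≤ hfin.toFinset.card := by
    unfold TN
    simp only [Finset.prod_empty, mul_one]
    have e1 : ∀ n, (∏ h ∈ H, In A (n + 1 + h) ω) = if PP A ω (n + 1) then (1 : ℝ) else 0 := by
      intro n
      rw [hH, Finset.prod_insert (by decide), Finset.prod_singleton]
      exact JJ_eq ω (n + 1)
    simp_rw [e1]
    rw [Finset.sum_boole]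
    have : ((Finset.range x).filter fun n => PP A ω (n + 1)).card ≤ hfin.toFinset.card := by
      refine Finset.card_le_card_of_injOn (fun n => n + 1) ?_ ?_
      · intro n hn
        have hn := Finset.mem_filter.1 (Finset.mem_coe.1 hn)
        exact Finset.mem_coe.2 (hfin.mem_toFinset.2 hn.2)
      · intro a _ b _ h
        simpa using h
    exact_mod_cast this
  linarith

/-- extension of a pattern -/
def ext {k : ℕ} (e : Fin k → ℕ) (i : ℕ) : ℕ := if h : i < k then e ⟨i, h⟩ else 0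

/-- **the frequencies of all patterns** -/
theorem main (hA : ∀ n, MeasurableSet[ℱ n] (A n)) (Q : Finset ℕ) (hQ : ∀ p ∈ Q, p.Prime) (hQ2 : 2 ∈ Q) (hQ3 : 3 ∈ Q)
    (hcop : ∀ n, (∃ p ∈ Q, p ∣ n) → A n = ∅)
    (hd : ∀ᵐ ω ∂μ, Tendsto (fun n : ℕ => dens μ ℱ A n ω * Real.log n)
      (atTop ⊓ 𝓟 {n : ℕ | ∀ p ∈ Q, ¬ p ∣ n + 1}) (𝓝 (∏ p ∈ Q, (1 - 1 / (p : ℝ))⁻¹))) :
    ∀ᵐ ω ∂μ, (Set.ofPred (PP A ω)).Infinite ∧ ∀ q : ℕ, 0 < q → ∀ k : ℕ, ∀ e : Fin k → ℕ,
      Tendsto (fun M : ℕ => G (PP A ω) q (ext e) k M / M) atTop (𝓝 (∏ i, nu (∏ p ∈ Q, p) q (e i))) := by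
  classical
  set W := ∏ p ∈ Q, p with hWdef
  have hWp : 0 < W := Finset.prod_pos fun q hq => (hQ q hq).pos
  have h2W : 2 ∣ W := Finset.dvd_prod_of_mem _ hQ2
  have h3W : 3 ∣ W := Finset.dvd_prod_of_mem _ hQ3
  have hW2 : 2 ≤ W := Nat.le_of_dvd hWp h2W
  have h23 : ∀ n, Nat.Coprime n W → n % 2 = 1 ∧ n % 3 ≠ 0 := by
    intro n hn
    refine ⟨Nat.odd_iff.1 (Nat.coprime_two_right.1 (hn.coprime_dvd_right h2W)), fun h => ?_⟩
    have h4 : Nat.Coprime n 3 := hn.coprime_dvd_right h3W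
    exact (Nat.Prime.coprime_iff_not_dvd Nat.prime_three).1 h4.symm (Nat.dvd_of_mod_eq_zero h)
  have hcop' : ∀ n, ¬ Nat.Coprime n W → A n = ∅ := fun n hn => hcop n (by
    rw [hWdef, cop_iff Q hQ] at hn
    push Not at hn
    exact hn)
  have hprof := dens_profile (μ := μ) hA W hWp hcop' (by
    rw [hWdef, totient_prod Q hQ]
    simp_rw [cop_iff Q hQ]
    exact hd)
  have h1 : ∀ᵐ ω ∂μ, ∀ q : ℕ, ∀ hq : 0 < q, ∀ k : ℕ, ∀ e : Fin k → ℕ, ∀ j : ℕ,
      Tendsto (fun N => G (PP A ω) q (ext e) j (@Nat.count (PP A ω) (Classical.decPred _) N - j)) atTop atTop →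
      Tendsto (fun N => G (PP A ω) q (ext e) (j + 1) (@Nat.count (PP A ω) (Classical.decPred _) N - j) /
        G (PP A ω) q (ext e) j (@Nat.count (PP A ω) (Classical.decPred _) N - j)) atTop (𝓝 (nu W q (ext e j))) := by
    refine ae_all_iff.2 fun q => ?_
    by_cases hq : 0 < q
    · have h3 : ∀ᵐ ω ∂μ, ∀ k : ℕ, ∀ e : Fin k → ℕ, ∀ j : ℕ,
        Tendsto (fun N => G (PP A ω) q (ext e) j (@Nat.count (PP A ω) (Classical.decPred _) N - j)) atTop atTop →
        Tendsto (fun N => G (PP A ω) q (ext e) (j + 1) (@Nat.count (PP A ω) (Classical.decPred _) N - j) /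
          G (PP A ω) q (ext e) j (@Nat.count (PP A ω) (Classical.decPred _) N - j)) atTop (𝓝 (nu W q (ext e j))) :=
        ae_all_iff.2 fun k => ae_all_iff.2 fun e => ae_all_iff.2 fun j =>
          core (μ := μ) hA W hW2 h23 hcop' hprof q hq (ext e) j
      filter_upwards [h3] with ω hω _
      exact hω
    · exact Eventually.of_forall fun ω h => absurd h hq
  filter_upwards [h1, inf_pairs (μ := μ) hA Q hQ hcop hd] with ω g1 g2
  refine ⟨g2, fun q hq k e => ?_⟩
  have h4 := freq g2 q (ext e) (nu W q) (nu_nonneg W q) (g1 q hq k e) k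
  have h5 : ∏ i ∈ Finset.range k, nu W q (ext e i) = ∏ i, nu W q (e i) := by
    rw [Finset.prod_range]
    refine Finset.prod_congr rfl fun i _ => ?_
    unfold ext
    rw [dif_pos i.2]
  rw [h5] at h4
  exact h4

end Pool.Agent.N638.TW
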